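import Pool.Agent.H418R3.FB.Stmts

/-! Task Small: elementary estimates. -/

set_option autoImplicit false

open Filter Topology

namespace Pool.Agent.H418R3.FB.Small474

theorem key (ε : ℝ) (hε : 0 < ε) :
    ∃ N : ℕ, ∀ n : ℕ, N ≤ n → ((n : ℝ) + 1) ^ 2 / 2 ^ (n.factorial) ≤ ε := by
  have h1 : Tendsto (fun n : ℕ => (n : ℝ) ^ 2 / (2 : ℝ) ^ n) atTop (𝓝 0) :=
    tendsto_pow_const_div_const_pow_of_one_lt 2 one_lt_two
  have h2 := (h1.comp (tendsto_add_atTop_nat 1)).eventually_le_const (half_pos hε)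
  obtain ⟨N, hN⟩ := eventually_atTop.1 h2
  refine ⟨N, fun n hn => ?_⟩
  have h3 := hN n hn
  simp only [Function.comp_apply, Nat.cast_add, Nat.cast_one] at h3
  have h4 : (2 : ℝ) ^ n ≤ 2 ^ n.factorial :=
    pow_le_pow_right₀ one_le_two (Nat.self_le_factorial n)
  have h5 : (0 : ℝ) < 2 ^ n := by positivity
  calc ((n : ℝ) + 1) ^ 2 / 2 ^ (n.factorial) ≤ ((n : ℝ) + 1) ^ 2 / 2 ^ n := by
        apply div_le_div_of_nonneg_left (by positivity) h5 h4
    _ = 2 * (((n : ℝ) + 1) ^ 2 / 2 ^ (n + 1)) := by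
        rw [pow_succ (2 : ℝ) n]; field_simp
    _ ≤ 2 * (ε / 2) := by gcongr
    _ = ε := by ring

theorem fac (L m : ℕ) (h : L ≤ m) :
    (2 : ℝ) ^ (L * m.factorial) * 2 ^ m.factorial ≤ 2 ^ (m + 1).factorial := by
  rw [← pow_add]
  apply pow_le_pow_right₀ one_le_two
  rw [Nat.factorial_succ]
  nlinarith [Nat.factorial_pos m]

theorem rr_pow_le (L b m : ℕ) (h : b + 1 ≤ m) : rr b ^ L ≤ (2 : ℝ) ^ (L * m.factorial) := by
  unfold rr
  rw [← pow_mul]
  apply pow_le_pow_right₀ one_le_two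
  rw [mul_comm]
  exact Nat.mul_le_mul_left L (Nat.factorial_le h)

theorem main (L c b m : ℕ) (hb : b + 1 ≤ m) (hL : L ≤ m) (hc : c ≤ m) :
    HH b * rr b ^ L * (((m : ℝ) + 1) / rr m) ≤ ((m : ℝ) + 1) ^ 2 / 2 ^ (m.factorial) := by
  have h1 := rr_pow_le L b m hb
  have h2 := fac L m hL
  have h3 : (0 : ℝ) < 2 ^ (L * m.factorial) := by positivity
  have h4 : (0 : ℝ) < 2 ^ m.factorial := by positivity
  have h5 : HH b ≤ (m : ℝ) + 1 := by
    unfold HH
    have : ((b + 1 : ℕ) : ℝ) ≤ m := by exact_mod_cast hb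
    push_cast at this
    linarith
  have h6 : 0 < rr m := by unfold rr; positivity
  have h7 : (0 : ℝ) ≤ HH b := by unfold HH; positivity
  have h8 : (0 : ℝ) ≤ rr b ^ L := by unfold rr; positivity
  have h9 : (2 : ℝ) ^ (L * m.factorial) * 2 ^ m.factorial ≤ rr m := h2
  calc HH b * rr b ^ L * (((m : ℝ) + 1) / rr m)
      ≤ (((m : ℝ) + 1) * 2 ^ (L * m.factorial)) *
        (((m : ℝ) + 1) / (2 ^ (L * m.factorial) * 2 ^ m.factorial)) := by
        apply mul_le_mul
        · exact mul_le_mul h5 h1 h8 (by positivity)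
        · exact div_le_div_of_nonneg_left (by positivity) (by positivity) h9
        · positivity
        · positivity
    _ = ((m : ℝ) + 1) ^ 2 / 2 ^ (m.factorial) := by field_simp

end Pool.Agent.H418R3.FB.Small474

namespace Pool.Agent.H418R3.FB

open Small474

theorem Small474.taskSmall : TaskSmall := by
  intro L ε hε
  obtain ⟨N, hN⟩ := key ε hε
  obtain ⟨N2, hN2⟩ := exists_nat_gt (1 / ε)
  refine ⟨max (max N N2) (max L 1), fun b hb => ?_⟩
  have hbN : N ≤ b := le_trans (le_trans (le_max_left _ _) (le_max_left _ _)) hb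
  have hbN2 : N2 ≤ b := le_trans (le_trans (le_max_right _ _) (le_max_left _ _)) hb
  have hbL : L ≤ b := le_trans (le_trans (le_max_left _ _) (le_max_right _ _)) hb
  have hb1 : 1 ≤ b := le_trans (le_trans (le_max_right _ _) (le_max_right _ _)) hb
  refine ⟨fun c hc => ?_, fun c hc => ?_, ?_, ?_⟩
  · have h := main L c c b hc hbL hc.le
    calc HH c * rr c ^ L * HH b / rr b = HH c * rr c ^ L * (((b : ℝ) + 1) / rr b) := by
          unfold HH; ring
      _ ≤ _ := h
      _ ≤ ε := hN b hbN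
  · have h := main L c b c hc (by omega) le_rfl
    calc HH c / rr c * (HH b * rr b ^ L) = HH b * rr b ^ L * (((c : ℝ) + 1) / rr c) := by
          unfold HH; ring
      _ ≤ _ := h
      _ ≤ ε := hN c (by omega)
  · have h := main 0 b 0 b (by omega) (Nat.zero_le _) le_rfl
    calc HH b / rr b = HH 0 * rr 0 ^ 0 * (((b : ℝ) + 1) / rr b) := by
          unfold HH; simp
      _ ≤ _ := h
      _ ≤ ε := hN b hbN
  · unfold HH
    rw [div_le_iff₀ (by positivity)]
    have h1 : 1 / ε < (b : ℝ) + 1 := by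
      have : (N2 : ℝ) ≤ b := by exact_mod_cast hbN2
      linarith
    rw [div_lt_iff₀ hε] at h1
    linarith

end Pool.Agent.H418R3.FB
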